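import Mathlib

/-!
# MP_06621a_co, Q1: the maximum number of distinct palindromic subsequences
-/

namespace Pool.Agent.Results.MP_06621a_co.MaxPalindromes

open Finset

/-- `SP(w)`: the number of distinct non-empty palindromes occurring as scattered subwords of `w` -/
noncomputable def SP {α : Type} (w : List α) : ℕ :=
  Set.ncard {p : List α | p ≠ [] ∧ p.Sublist w ∧ p.reverse = p}

/-- the number of distinct letters of `w` -/
noncomputable def letters {α : Type} (w : List α) : ℕ := Set.ncard {a : α | a ∈ w}

/-- the conjectured maximum -/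
def M (n : ℕ) : ℕ := if n % 2 = 1 then 3 * 2 ^ ((n + 1) / 2 - 1) - 2 else 2 ^ (n / 2 + 1) - 2

/-- auxiliary convex function, `H (n+1) = M n + 2` -/
def H : ℕ → ℕ
  | 0 => 1
  | 1 => 2
  | 2 => 3
  | m + 3 => 2 * H (m + 1)

lemma H_step (m : ℕ) : H (m + 3) = 2 * H (m + 1) := rfl

lemma H_pos (m : ℕ) : 1 ≤ H m := by
  induction m using Nat.strong_induction_on with
  | _ m ih =>
    match m with
    | 0 => simp [H]
    | 1 => simp [H]
    | 2 => simp [H]
    | m + 3 => rw [H_step]; have := ih (m + 1) (by omega); omega

lemma H_convex (m : ℕ) : 2 * H (m + 1) ≤ H m + H (m + 2) := by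
  induction m using Nat.strong_induction_on with
  | _ m ih =>
    match m with
    | 0 => simp [H]
    | 1 => simp [H]
    | 2 => simp [H]
    | m + 3 =>
      have := ih (m + 1) (by omega)
      rw [show m + 3 + 1 = (m + 1) + 3 by ring, show m + 3 + 2 = (m + 2) + 3 by ring,
        H_step, H_step, H_step]
      rw [show m + 1 + 2 = m + 2 + 1 by ring] at this
      omega

lemma H_mono_step (m : ℕ) : H m ≤ H (m + 1) := by
  induction m with
  | zero => simp [H]
  | succ m ih =>
    have := H_convex m
    show H (m + 1) ≤ H (m + 2)
    omega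

lemma H_mono : Monotone H := monotone_nat_of_le_succ H_mono_step

/-- the extension to `ℤ` -/
def K (z : ℤ) : ℤ := (H z.toNat : ℤ)

lemma K_mono : Monotone K := by
  intro a b h
  unfold K
  exact_mod_cast H_mono (Int.toNat_le_toNat h)

lemma K_convex (z : ℤ) : K (z + 1) - K z ≤ K (z + 2) - K (z + 1) := by
  rcases lt_or_ge z 0 with h | h
  · have h1 : K (z + 1) = K z := by
      unfold K
      rw [Int.toNat_of_nonpos (by omega), Int.toNat_of_nonpos (by omega)]
    have h2 := K_mono (show z + 1 ≤ z + 2 by omega)
    omega
  · obtain ⟨m, rfl⟩ := Int.eq_ofNat_of_zero_le h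
    have := H_convex m
    unfold K
    rw [show ((m : ℤ) + 1).toNat = m + 1 by omega, show ((m : ℤ) + 2).toNat = m + 2 by omega,
      show ((m : ℤ)).toNat = m by omega]
    omega

lemma K_diff {z z' : ℤ} (h : z ≤ z') : K (z + 1) - K z ≤ K (z' + 1) - K z' := by
  obtain ⟨n, hn⟩ := Int.eq_ofNat_of_zero_le (show 0 ≤ z' - z by omega)
  obtain rfl : z' = z + n := by omega
  clear h hn
  induction n with
  | zero => simp
  | succ n ih =>
    have := K_convex (z + n)
    push_cast
    rw [show z + ((n : ℤ) + 1) + 1 = z + n + 2 by ring, show z + ((n : ℤ) + 1) = z + n + 1 by ring]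
    omega

lemma K_super {z z' : ℤ} (h : z ≤ z') (n : ℕ) : K (z + n) - K z ≤ K (z' + n) - K z' := by
  induction n with
  | zero => simp
  | succ n ih =>
    have := K_diff (show z + n ≤ z' + n by omega)
    push_cast
    rw [← add_assoc, ← add_assoc]
    omega

/-- rearrangement: nested intervals are best -/
lemma rearrange {α : Type} [DecidableEq α] : ∀ (k : ℕ) (S : Finset α) (f l : α → ℤ) (a b : ℤ),
    S.card = k → Set.InjOn f S → Set.InjOn l S → (∀ x ∈ S, a ≤ f x) → (∀ x ∈ S, l x ≤ b) →
    ∑ x ∈ S, K (l x - f x) ≤ ∑ i ∈ range k, K (b - a - 2 * i) := by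
  intro k
  induction k with
  | zero =>
    intro S f l a b hS _ _ _ _
    rw [Finset.card_eq_zero] at hS
    subst hS
    simp
  | succ k ih =>
    -- the case where some element has both minimal `f` and maximal `l`
    have case1 : ∀ (S : Finset α) (f l : α → ℤ) (a b : ℤ) (x : α), x ∈ S →
        S.card = k + 1 → Set.InjOn f S → Set.InjOn l S → (∀ y ∈ S, a ≤ f y) →
        (∀ y ∈ S, l y ≤ b) → (∀ y ∈ S, f x ≤ f y) → (∀ y ∈ S, l y ≤ l x) →
        ∑ x ∈ S, K (l x - f x) ≤ ∑ i ∈ range (k + 1), K (b - a - 2 * i) := by
      intro S f l a b x hx hS hf hl ha hb hmin hmax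
      rw [← Finset.add_sum_erase S _ hx, Finset.sum_range_succ']
      have h1 := ih (S.erase x) f l (a + 1) (b - 1) (by rw [Finset.card_erase_of_mem hx, hS]; rfl)
        (hf.mono (by simp)) (hl.mono (by simp))
        (by
          intro y hy
          have hyS := Finset.mem_of_mem_erase hy
          have hne := Finset.ne_of_mem_erase hy
          have h2 := hmin y hyS
          have h3 : f x ≠ f y := fun h => hne (hf hyS hx h.symm)
          have h4 := ha x hx
          omega)
        (by
          intro y hy
          have hyS := Finset.mem_of_mem_erase hy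
          have hne := Finset.ne_of_mem_erase hy
          have h2 := hmax y hyS
          have h3 : l x ≠ l y := fun h => hne (hl hyS hx h.symm)
          have h4 := hb x hx
          omega)
      have h2 : K (l x - f x) ≤ K (b - a - 2 * ((0 : ℕ) : ℤ)) := by
        apply K_mono
        have := ha x hx
        have := hb x hx
        push_cast
        omega
      have h3 : ∑ i ∈ range k, K (b - 1 - (a + 1) - 2 * (i : ℤ))
          = ∑ i ∈ range k, K (b - a - 2 * ((i + 1 : ℕ) : ℤ)) := by
        apply Finset.sum_congr rfl
        intro i _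
        congr 1
        push_cast
        ring
      rw [h3] at h1
      linarith
    intro S f l a b hS hf hl ha hb
    have hne : S.Nonempty := by
      rw [← Finset.card_pos]; omega
    obtain ⟨x, hx, hxmin⟩ := Finset.exists_min_image S f hne
    obtain ⟨y, hy, hymax⟩ := Finset.exists_max_image S l hne
    by_cases hxy : x = y
    · subst hxy
      exact case1 S f l a b x hx hS hf hl ha hb hxmin hymax
    · -- swap the values of `l` at `x` and `y`
      let l' : α → ℤ := fun z => l (Equiv.swap x y z)
      have hmem : ∀ z ∈ S, Equiv.swap x y z ∈ S := by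
        intro z hz
        rcases eq_or_ne z x with rfl | h1
        · rw [Equiv.swap_apply_left]; exact hy
        · rcases eq_or_ne z y with rfl | h2
          · rw [Equiv.swap_apply_right]; exact hx
          · rw [Equiv.swap_apply_of_ne_of_ne h1 h2]; exact hz
      have hl' : Set.InjOn l' S := by
        intro z hz z' hz' h
        exact (Equiv.swap x y).injective (hl (hmem z hz) (hmem z' hz') h)
      have h1 := case1 S f l' a b x hx hS hf hl' ha (fun z hz => hb _ (hmem z hz)) hxmin (by
        intro z hz
        show l (Equiv.swap x y z) ≤ l (Equiv.swap x y x)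
        rw [Equiv.swap_apply_left]
        exact hymax _ (hmem z hz))
      refine le_trans ?_ h1
      have hyx : y ∈ S.erase x := Finset.mem_erase.mpr ⟨fun h => hxy h.symm, hy⟩
      rw [← Finset.add_sum_erase S _ hx, ← Finset.add_sum_erase (S.erase x) _ hyx,
        ← Finset.add_sum_erase S (fun z => K (l' z - f z)) hx,
        ← Finset.add_sum_erase (S.erase x) (fun z => K (l' z - f z)) hyx]
      have h2 : ∑ z ∈ (S.erase x).erase y, K (l' z - f z)
          = ∑ z ∈ (S.erase x).erase y, K (l z - f z) := by
        apply Finset.sum_congr rfl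
        intro z hz
        rw [Finset.mem_erase, Finset.mem_erase] at hz
        show K (l (Equiv.swap x y z) - f z) = _
        rw [Equiv.swap_apply_of_ne_of_ne hz.2.1 hz.1]
      rw [h2]
      show _ ≤ K (l (Equiv.swap x y x) - f x) + (K (l (Equiv.swap x y y) - f y) + _)
      rw [Equiv.swap_apply_left, Equiv.swap_apply_right]
      -- supermodularity
      obtain ⟨n, hn⟩ := Int.eq_ofNat_of_zero_le (show 0 ≤ l y - l x by
        have := hymax x hx; omega)
      have h3 := K_super (z := l x - f y) (z' := l x - f x)
        (by have := hxmin y hy; omega) n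
      rw [show l x - f y + (n : ℤ) = l y - f y by omega,
        show l x - f x + (n : ℤ) = l y - f x by omega] at h3
      linarith

/-- the numerical inequality -/
lemma numeric (k : ℕ) : ∀ n s : ℕ, s + 2 * k ≤ n →
    s + ∑ i ∈ range k, H (n - 1 - 2 * i) + 2 ≤ H (n + 1) ∧
    (s + ∑ i ∈ range k, H (n - 1 - 2 * i) + 2 = H (n + 1) →
      (n % 2 = 1 → s + k = (n + 1) / 2) ∧ (n % 2 = 0 → s + k = n / 2 ∨ s + k = n / 2 + 1)) := by
  induction k with
  | zero =>
    intro n s hs
    have key : ∀ n : ℕ, n + 2 ≤ H (n + 1) ∧ (3 ≤ n → n + 3 ≤ H (n + 1)) := by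
      intro n
      induction n using Nat.strong_induction_on with
      | _ n ih =>
        match n with
        | 0 => simp [H]
        | 1 => simp [H]
        | 2 => simp [H]
        | 3 => simp [H]
        | n + 4 =>
          have := (ih (n + 2) (by omega)).1
          rw [show n + 4 + 1 = (n + 2) + 3 by ring, H_step]
          constructor
          · omega
          · intro _; omega
    have h1 := key n
    simp only [range_zero, sum_empty, add_zero]
    simp only [mul_zero, add_zero] at hs
    refine ⟨by omega, fun h => ?_⟩
    have h2 : n < 3 := by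
      by_contra hcon
      have := h1.2 (by omega)
      omega
    have h3 : s = n := by omega
    subst h3
    constructor
    · intro _; omega
    · intro _; omega
  | succ k ih =>
    intro n s hs
    obtain ⟨n', rfl⟩ : ∃ n', n = n' + 2 := ⟨n - 2, by omega⟩
    have h1 := ih n' s (by omega)
    rw [Finset.sum_range_succ']
    have h2 : ∑ i ∈ range k, H (n' + 2 - 1 - 2 * (i + 1)) = ∑ i ∈ range k, H (n' - 1 - 2 * i) := by
      apply Finset.sum_congr rfl
      intro i hi
      congr 1
      omega
    rw [h2, show n' + 2 - 1 - 2 * 0 = n' + 1 by omega, show n' + 2 + 1 = n' + 3 by ring, H_step]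
    refine ⟨by omega, fun h => ?_⟩
    have h3 := h1.2 (by omega)
    constructor
    · intro hm
      have := h3.1 (by omega)
      omega
    · intro hm
      have := h3.2 (by omega)
      omega

lemma M_H (n : ℕ) : M n + 2 = H (n + 1) := by
  induction n using Nat.strong_induction_on with
  | _ n ih =>
    match n with
    | 0 => simp [M, H]
    | 1 => simp [M, H]
    | n + 2 =>
      rw [show n + 2 + 1 = n + 3 by ring, H_step, ← ih n (by omega)]
      unfold M
      rcases Nat.mod_two_eq_zero_or_one n with h | h
      · rw [if_neg (by omega), if_neg (by omega), show (n + 2) / 2 + 1 = (n / 2 + 1) + 1 by omega,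
          pow_succ 2 (n / 2 + 1)]
        have : 2 ≤ 2 ^ (n / 2 + 1) := by
          rw [pow_succ]; have := Nat.one_le_two_pow (n := n / 2); omega
        omega
      · rw [if_pos (by omega), if_pos (by omega), show (n + 2 + 1) / 2 - 1 = ((n + 1) / 2 - 1) + 1
          by omega, pow_succ 2 ((n + 1) / 2 - 1)]
        have := Nat.one_le_two_pow (n := (n + 1) / 2 - 1)
        omega

/-! ### the recursion for palindromes -/

/-- palindromic subsequences starting with `a` -/
def PalHead {α : Type} (w : List α) (a : α) : Set (List α) :=
  {p | p.head? = some a ∧ p.Sublist w ∧ p.reverse = p}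

lemma finite_sub {α : Type} (w : List α) : {p : List α | p.Sublist w}.Finite := by
  have : {p : List α | p.Sublist w} = {p | p ∈ w.sublists} := by
    ext p; simp
  rw [this]
  exact List.finite_toSet _

lemma pal_shape {α : Type} {p : List α} {a : α} (h : p.head? = some a) (hr : p.reverse = p) :
    p = [a] ∨ ∃ q, q.reverse = q ∧ p = a :: (q ++ [a]) := by
  have hp := List.Palindrome.of_reverse_eq hr
  cases hp with
  | nil => simp at h
  | singleton x => left; simp at h; rw [h]
  | cons_concat x hp =>
    right
    simp at h
    subst h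
    exact ⟨_, hp.reverse_eq, rfl⟩

lemma strip {α : Type} {a : α} {t x r : List α} (hx : a ∉ x) (h : (a :: t).Sublist (x ++ r)) :
    (a :: t).Sublist r := by
  induction x with
  | nil => exact h
  | cons b x ih =>
    rw [List.cons_append, List.sublist_cons_iff] at h
    rcases h with h | ⟨r', hr', -⟩
    · exact ih (fun hm => hx (List.mem_cons_of_mem _ hm)) h
    · exfalso
      apply hx
      rw [List.cons.injEq] at hr'
      rw [hr'.1]
      exact List.mem_cons_self

lemma inner_sub {α : Type} {a : α} {q x y z : List α} (hx : a ∉ x) (hz : a ∉ z)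
    (h : (a :: (q ++ [a])).Sublist (x ++ a :: (y ++ a :: z))) : q.Sublist y := by
  have h1 := strip hx h
  rw [List.cons_sublist_cons] at h1
  have h2 := h1.reverse
  rw [List.reverse_append, List.reverse_append] at h2
  simp only [List.reverse_cons, List.reverse_nil, List.nil_append, List.append_assoc,
    List.cons_append] at h2
  have h3 := strip (by simpa using hz) h2
  rw [List.cons_sublist_cons] at h3
  have h4 := h3.reverse
  simpa using h4

lemma palHead_single {α : Type} [DecidableEq α] (w : List α) (a : α) (h : w.count a ≤ 1) :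
    (PalHead w a).ncard ≤ 1 := by
  have hsub : PalHead w a ⊆ {[a]} := by
    rintro p ⟨hh, hs, hr⟩
    rcases pal_shape hh hr with h1 | ⟨q, -, rfl⟩
    · exact h1
    · exfalso
      have h2 := hs.count_le a
      rw [List.count_cons_self, List.count_append, List.count_singleton_self] at h2
      omega
  exact (Set.ncard_le_ncard hsub (Set.finite_singleton _)).trans (by rw [Set.ncard_singleton])

lemma palHead_multi {α : Type} {a : α} {x y z : List α} (hx : a ∉ x) (hz : a ∉ z) :
    (PalHead (x ++ a :: (y ++ a :: z)) a).ncard ≤ SP y + 2 := by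
  have hfin : {p : List α | p ≠ [] ∧ p.Sublist y ∧ p.reverse = p}.Finite :=
    (finite_sub y).subset fun p hp => hp.2.1
  have hsub : PalHead (x ++ a :: (y ++ a :: z)) a ⊆
      insert [a] ((fun q => a :: (q ++ [a])) '' (insert [] {p | p ≠ [] ∧ p.Sublist y ∧
        p.reverse = p})) := by
    rintro p ⟨hh, hs, hr⟩
    rcases pal_shape hh hr with h1 | ⟨q, hq, rfl⟩
    · left; exact h1
    · right
      refine ⟨q, ?_, rfl⟩
      by_cases hq0 : q = []
      · left; exact hq0
      · right
        exact ⟨hq0, inner_sub hx hz hs, hq⟩
  refine (Set.ncard_le_ncard hsub (((hfin.insert _).image _).insert _)).trans ?_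
  refine (Set.ncard_insert_le _ _).trans ?_
  have h1 := Set.ncard_image_le (f := fun q => a :: (q ++ [a])) (hfin.insert ([] : List α))
  have h2 := Set.ncard_insert_le ([] : List α) {p : List α | p ≠ [] ∧ p.Sublist y ∧ p.reverse = p}
  unfold SP
  omega

/-- the first and last occurrences -/
lemma decompose {α : Type} [DecidableEq α] (w : List α) (a : α) (h : 2 ≤ w.count a) :
    ∃ x y z, w = x ++ a :: (y ++ a :: z) ∧ a ∉ x ∧ a ∉ z := by
  have hmem : a ∈ w := List.count_pos_iff.mp (by omega)
  obtain ⟨x, r, hw, hx⟩ := List.eq_append_cons_of_mem hmem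
  have hr : 0 < r.count a := by
    rw [hw, List.count_append, List.count_cons_self, List.count_eq_zero_of_not_mem hx] at h
    omega
  have hmem' : a ∈ r.reverse := by
    rw [List.mem_reverse]; exact List.count_pos_iff.mp hr
  obtain ⟨z, y, hr', hz⟩ := List.eq_append_cons_of_mem hmem'
  refine ⟨x, y.reverse, z.reverse, ?_, hx, by simpa using hz⟩
  have : r = y.reverse ++ a :: z.reverse := by
    have := congrArg List.reverse hr'
    rw [List.reverse_reverse, List.reverse_append] at this
    rw [this]
    simp
  rw [hw, this]

lemma main_bound : ∀ (n : ℕ) (α : Type) (w : List α), w.length = n →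
    SP w + 2 ≤ H (n + 1) ∧ (SP w + 2 = H (n + 1) →
      (n % 2 = 1 → letters w = (n + 1) / 2) ∧
      (n % 2 = 0 → letters w = n / 2 ∨ letters w = n / 2 + 1)) := by
  intro n
  induction n using Nat.strong_induction_on with
  | _ n ih =>
    intro α w hw
    classical
    -- letters occurring once / several times
    let S : Finset α := w.toFinset.filter (fun a => w.count a ≤ 1)
    let L : Finset α := w.toFinset.filter (fun a => ¬ w.count a ≤ 1)
    have hcover : {p : List α | p ≠ [] ∧ p.Sublist w ∧ p.reverse = p} ⊆
        ⋃ a ∈ w.toFinset, PalHead w a := by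
      rintro p ⟨hne, hs, hr⟩
      obtain ⟨a, t, rfl⟩ := List.exists_cons_of_ne_nil hne
      simp only [Set.mem_iUnion]
      refine ⟨a, ?_, rfl, hs, hr⟩
      rw [List.mem_toFinset]
      exact hs.subset List.mem_cons_self
    have hfinU : (⋃ a ∈ w.toFinset, PalHead w a).Finite := by
      apply (finite_sub w).subset
      intro p hp
      simp only [Set.mem_iUnion] at hp
      obtain ⟨a, -, hp⟩ := hp
      exact hp.2.1
    have h1 : SP w ≤ ∑ a ∈ w.toFinset, (PalHead w a).ncard :=
      (Set.ncard_le_ncard hcover hfinU).trans (Finset.set_ncard_biUnion_le _ _)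
    rw [← Finset.sum_filter_add_sum_filter_not w.toFinset (fun a => w.count a ≤ 1)] at h1
    have h2 : ∑ a ∈ S, (PalHead w a).ncard ≤ S.card := by
      have : ∑ a ∈ S, (PalHead w a).ncard ≤ ∑ a ∈ S, 1 := by
        apply Finset.sum_le_sum
        intro a ha
        exact palHead_single w a (Finset.mem_filter.mp ha).2
      simpa using this
    -- positions of first and last occurrences
    let f : α → ℤ := fun a => (w.idxOf a : ℤ)
    let l : α → ℤ := fun a => (w.length : ℤ) - 1 - (w.reverse.idxOf a : ℤ)
    have h3 : ∀ a ∈ L, ((PalHead w a).ncard : ℤ) ≤ K (l a - f a) := by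
      intro a ha
      have hc := (Finset.mem_filter.mp ha).2
      obtain ⟨x, y, z, hdec, hx, hz⟩ := decompose w a (by omega)
      have hf : w.idxOf a = x.length := by
        rw [hdec, List.idxOf_append_of_notMem hx, List.idxOf_cons_self, add_zero]
      have hl : w.reverse.idxOf a = z.length := by
        rw [hdec]
        simp only [List.reverse_append, List.reverse_cons, List.append_assoc, List.cons_append,
          List.nil_append]
        rw [List.idxOf_append_of_notMem (by simpa using hz), List.idxOf_cons_self, add_zero,
          List.length_reverse]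
      have hlen : w.length = x.length + (y.length + z.length + 2) := by
        rw [hdec]; simp only [List.length_append, List.length_cons]; omega
      have h4 := palHead_multi (y := y) hx hz
      rw [← hdec] at h4
      have h5 := (ih y.length (by omega) α y rfl).1
      have h6 : (l a - f a).toNat = y.length + 1 := by
        show ((w.length : ℤ) - 1 - (w.reverse.idxOf a : ℤ) - (w.idxOf a : ℤ)).toNat = _
        rw [hf, hl]
        omega
      unfold K
      rw [h6]
      exact_mod_cast h4.trans h5
    have hfinj : Set.InjOn f L := by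
      intro a ha b hb h
      have ha' : a ∈ w := List.mem_toFinset.mp (Finset.mem_filter.mp ha).1
      have h' : (w.idxOf a : ℤ) = (w.idxOf b : ℤ) := h
      have : w.idxOf a = w.idxOf b := by exact_mod_cast h'
      exact (List.idxOf_inj ha').mp this
    have hlinj : Set.InjOn l L := by
      intro a ha b hb h
      have ha' : a ∈ w := List.mem_toFinset.mp (Finset.mem_filter.mp ha).1
      have h' : (w.length : ℤ) - 1 - (w.reverse.idxOf a : ℤ)
        = (w.length : ℤ) - 1 - (w.reverse.idxOf b : ℤ) := h
      have : w.reverse.idxOf a = w.reverse.idxOf b := by omega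
      exact (List.idxOf_inj (by simpa using ha')).mp this
    have h4 := rearrange L.card L f l 0 ((n : ℤ) - 1) rfl hfinj hlinj
      (fun a _ => by show (0 : ℤ) ≤ (w.idxOf a : ℤ); positivity)
      (fun a _ => by
        show (w.length : ℤ) - 1 - (w.reverse.idxOf a : ℤ) ≤ _
        omega)
    have h5 : ∑ a ∈ L, ((PalHead w a).ncard : ℤ) ≤ ∑ a ∈ L, K (l a - f a) :=
      Finset.sum_le_sum h3
    have h6 : ∑ i ∈ range L.card, K ((n : ℤ) - 1 - 0 - 2 * i)
        = ((∑ i ∈ range L.card, H (n - 1 - 2 * i) : ℕ) : ℤ) := by
      push_cast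
      apply Finset.sum_congr rfl
      intro i _
      unfold K
      congr 2
      omega
    have h7 : ∑ a ∈ L, (PalHead w a).ncard ≤ ∑ i ∈ range L.card, H (n - 1 - 2 * i) := by
      have : ((∑ a ∈ L, (PalHead w a).ncard : ℕ) : ℤ) ≤
          ((∑ i ∈ range L.card, H (n - 1 - 2 * i) : ℕ) : ℤ) := by
        rw [← h6]
        push_cast
        exact h5.trans h4
      exact_mod_cast this
    -- counting letters
    have h8 : S.card + 2 * L.card ≤ n := by
      have e1 : ∑ a ∈ w.toFinset, w.count a = w.length := List.sum_toFinset_count_eq_length w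
      rw [← Finset.sum_filter_add_sum_filter_not w.toFinset (fun a => w.count a ≤ 1)] at e1
      have e2 : S.card ≤ ∑ a ∈ S, w.count a := by
        have : ∑ a ∈ S, 1 ≤ ∑ a ∈ S, w.count a := by
          apply Finset.sum_le_sum
          intro a ha
          exact List.count_pos_iff.mpr (List.mem_toFinset.mp (Finset.mem_filter.mp ha).1)
        simpa using this
      have e3 : 2 * L.card ≤ ∑ a ∈ L, w.count a := by
        have : ∑ a ∈ L, 2 ≤ ∑ a ∈ L, w.count a := by
          apply Finset.sum_le_sum
          intro a ha
          have := (Finset.mem_filter.mp ha).2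
          omega
        rw [Finset.sum_const, smul_eq_mul] at this
        omega
      have e4 : ∑ a ∈ S, w.count a + ∑ a ∈ L, w.count a = n := by rw [← hw]; exact e1
      omega
    have h9 : letters w = S.card + L.card := by
      have e1 : {a : α | a ∈ w} = (w.toFinset : Set α) := by
        ext a; simp
      unfold letters
      rw [e1, Set.ncard_coe_finset]
      exact (Finset.card_filter_add_card_filter_not (s := w.toFinset)
        (fun a => w.count a ≤ 1)).symm
    have h10 := numeric L.card n S.card h8
    have h11 : SP w ≤ S.card + ∑ i ∈ range L.card, H (n - 1 - 2 * i) := by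
      have e : SP w ≤ ∑ a ∈ S, (PalHead w a).ncard + ∑ a ∈ L, (PalHead w a).ncard := h1
      omega
    refine ⟨by omega, fun h => ?_⟩
    rw [h9]
    exact h10.2 (by omega)

/-- extremal words -/
def E : ℕ → List ℕ
  | 0 => []
  | 1 => [0]
  | n + 2 => (n + 2) :: (E n ++ [n + 2])

lemma E_length (n : ℕ) : (E n).length = n := by
  induction n using Nat.strong_induction_on with
  | _ n ih =>
    match n with
    | 0 => rfl
    | 1 => rfl
    | n + 2 => simp [E, ih n (by omega)]

lemma E_le (n : ℕ) : ∀ a ∈ E n, a ≤ n := by
  induction n using Nat.strong_induction_on with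
  | _ n ih =>
    match n with
    | 0 => simp [E]
    | 1 => simp [E]
    | n + 2 =>
      intro a ha
      simp only [E, List.mem_cons, List.mem_append, List.mem_nil_iff, or_false] at ha
      rcases ha with rfl | ha | rfl
      · exact le_refl _
      · have := ih n (by omega) a ha; omega
      · exact le_refl _

lemma SP_wrap {α : Type} (w : List α) (a : α) (ha : a ∉ w) :
    2 * SP w + 2 ≤ SP (a :: (w ++ [a])) := by
  let A : Set (List α) := {p | p ≠ [] ∧ p.Sublist w ∧ p.reverse = p}
  have hA : A.Finite := (finite_sub w).subset fun p hp => hp.2.1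
  have hinj : Function.Injective (fun q : List α => a :: (q ++ [a])) := by
    intro p q h
    simpa using h
  have hsub : A ∪ insert [a] ((fun q => a :: (q ++ [a])) '' (insert [] A)) ⊆
      {p : List α | p ≠ [] ∧ p.Sublist (a :: (w ++ [a])) ∧ p.reverse = p} := by
    rintro p (⟨h1, h2, h3⟩ | rfl | ⟨q, hq, rfl⟩)
    · exact ⟨h1, (h2.trans (List.sublist_append_left _ _)).trans (List.sublist_cons_self _ _), h3⟩
    · exact ⟨by simp, by simp, rfl⟩
    · have hq' : q.Sublist w ∧ q.reverse = q := by
        rcases hq with rfl | ⟨-, h2, h3⟩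
        · exact ⟨List.nil_sublist _, rfl⟩
        · exact ⟨h2, h3⟩
      refine ⟨by simp, ?_, ?_⟩
      · exact List.Sublist.cons_cons _ (hq'.1.append (List.Sublist.refl _))
      · simp [hq'.2]
  have hfin : {p : List α | p ≠ [] ∧ p.Sublist (a :: (w ++ [a])) ∧ p.reverse = p}.Finite :=
    (finite_sub _).subset fun p hp => hp.2.1
  have h1 := Set.ncard_le_ncard hsub hfin
  have hdisj : Disjoint A (insert [a] ((fun q => a :: (q ++ [a])) '' (insert [] A))) := by
    rw [Set.disjoint_left]
    rintro p ⟨-, h2, -⟩ hp
    have : a ∈ p := by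
      rcases hp with rfl | ⟨q, -, rfl⟩
      · simp
      · simp
    exact ha (h2.subset this)
  have h2 := Set.ncard_union_eq hdisj hA (((hA.insert _).image _).insert _)
  have h3 : [a] ∉ (fun q => a :: (q ++ [a])) '' (insert [] A) := by
    rintro ⟨q, -, hq⟩
    simp at hq
  have h4 := Set.ncard_insert_of_notMem h3 ((hA.insert _).image _)
  have h5 := Set.ncard_image_of_injective (insert [] A) hinj
  have h6 : ([] : List α) ∉ A := fun h => h.1 rfl
  have h7 := Set.ncard_insert_of_notMem h6 hA
  have h8 : SP w = A.ncard := rfl
  have h9 : SP (a :: (w ++ [a])) = {p : List α | p ≠ [] ∧ p.Sublist (a :: (w ++ [a])) ∧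
    p.reverse = p}.ncard := rfl
  omega

lemma SP_E (n : ℕ) : H (n + 1) ≤ SP (E n) + 2 := by
  induction n using Nat.strong_induction_on with
  | _ n ih =>
    match n with
    | 0 => simp [H]
    | 1 =>
      have h1 : {p : List ℕ | p ≠ [] ∧ p.Sublist (E 1) ∧ p.reverse = p} = {[0]} := by
        ext p
        constructor
        · rintro ⟨h1, h2, -⟩
          simp only [E] at h2
          rcases List.sublist_singleton.mp h2 with h | h
          · exact absurd h h1
          · exact h
        · rintro rfl
          exact ⟨by simp, by simp [E], rfl⟩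
      unfold SP
      rw [h1, Set.ncard_singleton]
      simp [H]
    | n + 2 =>
      have h1 := SP_wrap (E n) (n + 2) (fun h => by have := E_le n _ h; omega)
      have h2 := ih n (by omega)
      rw [show n + 2 + 1 = n + 3 by ring, H_step]
      show _ ≤ SP ((n + 2) :: (E n ++ [n + 2])) + 2
      omega

/-- Q1, affirmative: for every `n ≥ 1`, the maximum of `SP(w)` over the words of length `n` (over
any alphabet) is `M(n)`, and it is attained only by words whose number of distinct letters is
`⌈n/2⌉` if `n` is odd, and `n/2` or `n/2 + 1` if `n` is even. -/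
theorem result (n : ℕ) (_hn : 1 ≤ n) :
    (∃ w : List ℕ, w.length = n ∧ SP w = M n) ∧
    ∀ (α : Type) (w : List α), w.length = n → SP w ≤ M n ∧
      (SP w = M n → (n % 2 = 1 → letters w = (n + 1) / 2) ∧
        (n % 2 = 0 → letters w = n / 2 ∨ letters w = n / 2 + 1)) := by
  have hub : ∀ (α : Type) (w : List α), w.length = n → SP w ≤ M n ∧
      (SP w = M n → (n % 2 = 1 → letters w = (n + 1) / 2) ∧
        (n % 2 = 0 → letters w = n / 2 ∨ letters w = n / 2 + 1)) := by
    intro α w hw
    have h1 := main_bound n α w hw
    have h2 := M_H n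
    refine ⟨by omega, fun h => h1.2 (by omega)⟩
  refine ⟨⟨E n, E_length n, ?_⟩, hub⟩
  have h1 := (hub ℕ (E n) (E_length n)).1
  have h2 := SP_E n
  have h3 := M_H n
  omega

end Pool.Agent.Results.MP_06621a_co.MaxPalindromes
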